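import Pool.Agent.helper62.VN.SpecE
import Pool.Agent.helper36.VQE.HOC

/-!
# Row vne:NHC (MP_07c750_an): a function on `SL(2, ℝ)` which is locally constant almost everywhere is constant almost everywhere (adapted from row HOC of helper36)
-/

set_option autoImplicit false

open scoped MatrixGroups ContDiff Topology UpperHalfPlane
open UpperHalfPlane MeasureTheory Filter Set

namespace Pool.Agent.VNE

open Pool.Agent.RS Pool.Agent.VQE

theorem NHC_proof (h1 : VQE.NMB_stmt) : NHC_stmt := by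
  intro r0 u hr0 hu hae
  obtain ⟨ρ, hρ⟩ : ∃ ρ : ℝ, ρ = min (r0 / 4) (1 / 10) := ⟨_, rfl⟩
  have hρ0 : 0 < ρ := by
    rw [hρ]
    exact lt_min (by linarith) (by norm_num)
  have hρ1 : ρ ≤ r0 / 4 := by
    rw [hρ]
    exact min_le_left _ _
  have hρ2 : ρ ≤ 1 / 10 := by
    rw [hρ]
    exact min_le_right _ _
  obtain ⟨hnn, hz, hinv, -, -, hmul, hcont, -, -⟩ := h1
  have := HOC_pos
  have hself : ∀ g : SL(2, ℝ), nm (g⁻¹ * g) < ρ := by
    intro g
    rw [inv_mul_cancel, (hz 1).mpr rfl]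
    exact hρ0
  have hopen : ∀ g, IsOpen {g' : SL(2, ℝ) | nm (g⁻¹ * g') < ρ} := fun g =>
    isOpen_lt (hcont.comp (continuous_const.mul continuous_id)) continuous_const
  have hloc : ∀ g, ∃ c : ℝ, ∀ᵐ g' ∂mG, nm (g⁻¹ * g') < ρ → u g' = c := by
    intro g
    have hd : ∃ g1, nm (g⁻¹ * g1) < ρ ∧ ∀ᵐ g' ∂mG, nm (g1⁻¹ * g') ≤ r0 → u g' = u g1 := by
      by_contra hcon
      refine ((hopen g).measure_pos mG ⟨g, hself g⟩).ne' (measure_mono_null ?_ (ae_iff.mp hae))
      intro g1 hg1 hg1'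
      exact hcon ⟨g1, hg1, hg1'⟩
    obtain ⟨g1, hg1, hg1'⟩ := hd
    refine ⟨u g1, hg1'.mono fun g' h hg' => h ?_⟩
    have e : g1⁻¹ * g' = (g⁻¹ * g1)⁻¹ * (g⁻¹ * g') := by group
    rw [e]
    have h2 := hmul (g⁻¹ * g1)⁻¹ (g⁻¹ * g')
    rw [hinv] at h2
    have h3 := hnn (g⁻¹ * g1)
    have h4 := hnn (g⁻¹ * g')
    nlinarith
  choose c hc using hloc
  have hlc : ∀ g h, nm (g⁻¹ * h) < ρ → c h = c g := by
    intro g h hgh
    by_contra hne
    refine (((hopen g).inter (hopen h)).measure_pos mG ⟨h, hgh, hself h⟩).ne'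
      (measure_mono_null ?_ (ae_iff.mp ((hc g).and (hc h))))
    rintro g' ⟨h1, h2⟩ ⟨h3, h4⟩
    exact hne ((h4 h2).symm.trans (h3 h1))
  have hlc' : IsLocallyConstant c := by
    rw [IsLocallyConstant.iff_eventually_eq]
    intro g
    filter_upwards [(hopen g).mem_nhds (hself g)] with h hh
    exact hlc g h hh
  have : PreconnectedSpace SL(2, ℝ) := ⟨HOC_conn⟩
  refine ⟨c 1, ?_⟩
  filter_upwards [hae] with g hg
  have hcg : u g = c g := by
    by_contra hne
    refine ((hopen g).measure_pos mG ⟨g, hself g⟩).ne' (measure_mono_null ?_ (ae_iff.mp (hg.and (hc g))))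
    rintro g' h1 ⟨h2, h3⟩
    have h4 : nm (g⁻¹ * g') < ρ := h1
    exact hne ((h2 (by linarith)).symm.trans (h3 h1))
  rw [hcg]
  exact hlc'.apply_eq_of_preconnectedSpace g 1

end Pool.Agent.VNE
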